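import Pool.Agent.W983.PL.Stm

set_option autoImplicit false
open Set Topology

namespace Pool.Agent.W294.PC

open Pool.Agent.W983.PL

/-- points outside of the open interval `(u, v)` lie in the complementary arc -/
theorem mem_out {u v t : ℝ} (h1 : 1 / 8 ≤ u) (h2 : u < v) (h3 : v ≤ 7 / 8)
    (ht : (-1 / 8 ≤ t ∧ t ≤ 1 / 8) ∨ (1 / 8 ≤ t ∧ t ≤ 7 / 8 ∧ (t ≤ u ∨ v ≤ t)) ∨
      (7 / 8 ≤ t ∧ t ≤ 1)) : E t ∈ arc v (u + 1) := by
  rcases ht with ⟨a, b⟩ | ⟨a, b, c | c⟩ | ⟨a, b⟩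
  · exact ⟨t + 1, ⟨by linarith, by linarith⟩, E_add_one t⟩
  · exact ⟨t + 1, ⟨by linarith, by linarith⟩, E_add_one t⟩
  · exact ⟨t, ⟨by linarith, by linarith⟩, rfl⟩
  · exact ⟨t, ⟨by linarith, by linarith⟩, rfl⟩

theorem main (hBC : S_BC) (hPOS : S_POS) (hARC : S_ARC) : S_D1C := by
  intro F g Z η ρ ψ 𝓐 𝓑 hD I hI s p hp
  obtain ⟨hX, hA, hη, hρ, hη1, hρ1, -⟩ := hPOS F Z η ρ hD.gen.lift hD.cuts
  have hηm : StrictMono η := strictMono_nat_of_lt_succ hη
  have hρm : StrictAnti ρ := strictAnti_nat_of_succ_lt hρ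
  obtain ⟨k, b⟩ := s
  obtain ⟨b1, b2, b3, b4, b5, b6⟩ := hBC.1 k
  cases b with
  | true =>
    simp only [PP, if_true, mem_setOf_eq] at hp
    -- the general step
    have key : ∀ u v : ℝ, 1 / 8 ≤ u → u < v → v ≤ 7 / 8 →
        (∀ t ∈ goodB F Z η ρ, t ∉ Icc u v) → p.1 ∈ arc u v → p.2 ∈ arc u v →
        ¬ Linked (E I.1) (E I.2) p.1 p.2 := by
      intro u v h1 h2 h3 hg hp1 hp2
      have hI1 : E I.1 ∈ arc v (u + 1) ∧ E I.2 ∈ arc v (u + 1) := by
        rcases hI with (⟨j, rfl⟩ | hI) | hI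
        · have e1 := hη1 j
          have e2 := hρ1 j
          exact ⟨mem_out h1 h2 h3 (Or.inl ⟨by linarith, by linarith⟩),
            mem_out h1 h2 h3 (Or.inr (Or.inr ⟨by linarith, by linarith⟩))⟩
        · obtain ⟨r1, r2, r3, -, -⟩ := hD.fa.rng I hI
          have e1 := hη1 0
          have e2 := hρ1 0
          exact ⟨mem_out h1 h2 h3 (Or.inl ⟨by linarith, by linarith⟩),
            mem_out h1 h2 h3 (Or.inl ⟨by linarith, by linarith⟩)⟩
        · obtain ⟨r1, r2, r3, r4, r5⟩ := hD.fb.rng I hI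
          constructor
          · rcases r4 with r4 | r4
            · exact mem_out h1 h2 h3 (Or.inl ⟨by linarith, by linarith⟩)
            · refine mem_out h1 h2 h3 (Or.inr (Or.inl ⟨by linarith, by linarith, ?_⟩))
              by_contra hc
              push Not at hc
              exact hg _ r4 ⟨hc.1.le, hc.2.le⟩
          · rcases r5 with r5 | r5
            · exact mem_out h1 h2 h3 (Or.inr (Or.inr ⟨by linarith, by linarith⟩))
            · refine mem_out h1 h2 h3 (Or.inr (Or.inl ⟨by linarith, by linarith, ?_⟩))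
              by_contra hc
              push Not at hc
              exact hg _ r5 ⟨hc.1.le, hc.2.le⟩
      exact (hARC u v h2 (by linarith) _ hp1 _ hp2 _ hI1.1 _ hI1.2).2
    rcases hp with ⟨hp1, hp2⟩ | ⟨hp1, hp2⟩
    · obtain ⟨x1, x2, x3⟩ := hX k
      exact key _ _ (by linarith) x2 (by linarith) (fun t ht => (ht.2 k).1) hp1 hp2
    · obtain ⟨x1, x2, x3⟩ := hA k
      exact key _ _ (by linarith) x2 (by linarith) (fun t ht => (ht.2 k).2) hp1 hp2
  | false =>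
    simp only [PP, Bool.false_eq_true, if_false, mem_setOf_eq] at hp
    obtain ⟨hp1, hp2⟩ := hp
    have e0 := hη1 k
    have e1 := hη1 (k + 1)
    have f0 := hρ1 k
    have f1 := hρ1 (k + 1)
    have g0 := hη k
    have g1 := hρ k
    -- inner side
    have inner : ∀ t₁ t₂ : ℝ, E t₁ ∈ arc (ρ k - 1) (η k) → E t₂ ∈ arc (ρ k - 1) (η k) →
        ¬ Linked (E t₁) (E t₂) p.1 p.2 := by
      intro t₁ t₂ h1 h2
      have hsub : ∀ z ∈ arc (η k) (η (k + 1)) ∪ arc (ρ (k + 1)) (ρ k),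
          z ∈ arc (η k) (ρ k - 1 + 1) := by
        rintro z (⟨t, ht, rfl⟩ | ⟨t, ht, rfl⟩)
        · exact ⟨t, ⟨ht.1, by linarith [ht.2]⟩, rfl⟩
        · exact ⟨t, ⟨by linarith [ht.1], by linarith [ht.2]⟩, rfl⟩
      exact (hARC (ρ k - 1) (η k) (by linarith) (by linarith) _ h1 _ h2 _ (hsub _ hp1) _
        (hsub _ hp2)).1
    have outer : ∀ t₁ t₂ : ℝ, t₁ ∈ Icc (η (k + 1)) (ρ (k + 1)) → t₂ ∈ Icc (η (k + 1)) (ρ (k + 1)) →
        ¬ Linked (E t₁) (E t₂) p.1 p.2 := by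
      intro t₁ t₂ h1 h2
      have hsub : ∀ z ∈ arc (η k) (η (k + 1)) ∪ arc (ρ (k + 1)) (ρ k),
          z ∈ arc (ρ (k + 1)) (η (k + 1) + 1) := by
        rintro z (⟨t, ht, rfl⟩ | ⟨t, ht, rfl⟩)
        · exact ⟨t + 1, ⟨by linarith [ht.1], by linarith [ht.2]⟩, E_add_one t⟩
        · exact ⟨t, ⟨by linarith [ht.1], by linarith [ht.2]⟩, rfl⟩
      exact (hARC (η (k + 1)) (ρ (k + 1)) (by linarith) (by linarith) _ ⟨t₁, h1, rfl⟩ _
        ⟨t₂, h2, rfl⟩ _ (hsub _ hp1) _ (hsub _ hp2)).1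
    rcases hI with (⟨j, rfl⟩ | hI) | hI
    · have ej := hη1 j
      have fj := hρ1 j
      rcases le_or_gt j k with hj | hj
      · have m1 := hηm.monotone hj
        have m2 := hρm.antitone hj
        refine inner _ _ ⟨η j, ⟨by linarith, m1⟩, rfl⟩ ⟨ρ j - 1, ⟨by linarith, by linarith⟩, ?_⟩
        have := E_add_one (ρ j - 1)
        rw [sub_add_cancel] at this
        exact this.symm
      · have m1 := hηm.monotone (show k + 1 ≤ j from hj)
        have m2 := hρm.antitone (show k + 1 ≤ j from hj)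
        exact outer _ _ ⟨m1, by linarith⟩ ⟨by linarith, m2⟩
    · obtain ⟨r1, r2, r3, -, -⟩ := hD.fa.rng I hI
      have m1 := hηm.monotone (Nat.zero_le k)
      have m2 := hρm.antitone (Nat.zero_le k)
      exact inner _ _ ⟨I.1, ⟨by linarith, by linarith⟩, rfl⟩ ⟨I.2, ⟨by linarith, by linarith⟩, rfl⟩
    · obtain ⟨r1, r2, r3, -, -⟩ := hD.fb.rng I hI
      exact outer _ _ ⟨by linarith, by linarith⟩ ⟨by linarith, by linarith⟩

end Pool.Agent.W294.PC
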